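import Mathlib
import Pool.Agent.DilatesP.Final

set_option autoImplicit false

open MeasureTheory Filter Topology

namespace Pool.Agent.Results.MP_4470cb_an.DenseDilates

/-- The map `T_a : x ↦ a x` of the circle `ℝ / ℤ`, for an integer `a`. -/
def T (a : ℤ) (x : UnitAddCircle) : UnitAddCircle := a • x

/-- The space `𝒫_p` of the Borel probability measures `μ` on the circle with `T_p μ = μ`, with
the weak-* topology (the subspace topology of Mathlib's `ProbabilityMeasure UnitAddCircle`). -/
abbrev Inv (p : ℕ) : Type :=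
  {μ : ProbabilityMeasure UnitAddCircle //
    (μ : Measure UnitAddCircle).map (T p) = (μ : Measure UnitAddCircle)}

/-- `μ` is continuous: it has no atoms. -/
def Atomless {p : ℕ} (μ : Inv p) : Prop :=
  ∀ x : UnitAddCircle, (μ.1 : Measure UnitAddCircle) {x} = 0

/-- The images `T_{c_n} μ` converge weak-* to Lebesgue measure. -/
def Equidistributes {p : ℕ} (c : ℕ → ℤ) (μ : Inv p) : Prop :=
  ∀ f : C(UnitAddCircle, ℝ),
    Tendsto (fun n : ℕ => ∫ x, f x ∂((μ.1 : Measure UnitAddCircle).map (T (c n))))
      atTop (𝓝 (∫ x, f x))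

/-- The set `𝒢_{p,(c_n)}` of the problem. -/
def G (p : ℕ) (c : ℕ → ℤ) : Set (Inv p) := {μ | Atomless μ ∧ ¬ Equidistributes c μ}

/-- For every `ε > 0` there is one strictly increasing sequence of positive integers with
`c_n ≤ (1 + ε) (n + 1)` such that for every base `p ≥ 2` the generic `p`-invariant probability
measure is atomless and its dilates by `c_n` converge weak-* to Lebesgue measure; in particular
`𝒢_{p,(c_n)}` is meagre and not residual, for every `p ≥ 2`. -/
theorem result (ε : ℝ) (hε : 0 < ε) :
    ∃ c : ℕ → ℤ, StrictMono c ∧ (∀ n : ℕ, 0 < c n ∧ (c n : ℝ) ≤ (1 + ε) * (n + 1)) ∧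
      ∀ p : ℕ, 2 ≤ p →
        {μ : Inv p | Atomless μ ∧ Equidistributes c μ} ∈ residual (Inv p) ∧
        IsMeagre (G p c) ∧ G p c ∉ residual (Inv p) := by
  obtain ⟨c, hmono, hbound, hres⟩ := Pool.Agent.DilatesP.main ε hε
  refine ⟨fun n => ((c n : ℕ) : ℤ), fun m n hmn => Int.ofNat_lt.mpr (hmono hmn), ?_, ?_⟩
  · intro n
    refine ⟨Int.natCast_pos.mpr (hbound n).1, ?_⟩
    have := (hbound n).2
    push_cast
    exact this
  · intro p hp
    have hT : (T (p : ℤ) : UnitAddCircle → UnitAddCircle) = fun x : UnitAddCircle => p • x := by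
      funext x
      exact natCast_zsmul x p
    have h1 : {μ : Inv p | Atomless μ ∧ Equidistributes (fun n => ((c n : ℕ) : ℤ)) μ}
        ∈ residual (Inv p) := by
      have h := hres p hp
      unfold Inv Atomless Equidistributes
      rw [hT]
      exact h
    have h2 : IsMeagre (G p (fun n => ((c n : ℕ) : ℤ))) := by
      rw [IsMeagre]
      filter_upwards [h1] with μ hμ hG
      exact hG.2 hμ.2
    refine ⟨h1, h2, ?_⟩
    intro h3
    have hcomp : CompactSpace (Inv p) := by
      have hcl := Pool.Agent.DilatesP.PP_isClosed p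
      have : CompactSpace {μ : ProbabilityMeasure UnitAddCircle //
          (μ : Measure UnitAddCircle).map (fun x : UnitAddCircle => p • x)
            = (μ : Measure UnitAddCircle)} := isCompact_iff_compactSpace.mp hcl.isCompact
      unfold Inv
      rw [hT]
      exact this
    have hne : Nonempty (Inv p) := by
      obtain ⟨ν, hν⟩ := Pool.Agent.DilatesP.PP_nonempty p
      refine ⟨⟨ν, ?_⟩⟩
      rw [hT]
      exact hν
    have hbaire : BaireSpace (Inv p) := inferInstance
    obtain ⟨μ, hμ1, hμ2⟩ := (dense_of_mem_residual (Filter.inter_mem h1 h3)).nonempty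
    exact hμ2.2 hμ1.2

end Pool.Agent.Results.MP_4470cb_an.DenseDilates
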